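import Pool.Agent.helper96.DP.API
import Pool.Agent.helper95.DP.Fin

/-!
# Project dp, part B, module BSYM: change of coordinates
-/

namespace DP

open MeasureTheory

/-- reindexing of the product measure -/
theorem BSYM_map {X : Type} [MeasurableSpace X] (μ : V → Measure X)
    [∀ v, IsProbabilityMeasure (μ v)] (φ : V ≃ V) :
    (Measure.infinitePi fun v => μ (φ.symm v)).map
      (MeasurableEquiv.piCongrLeft (fun _ => X) φ.symm) = Measure.infinitePi μ :=
  Measure.infinitePi_map_piCongrLeft μ φ.symm

theorem BSYM_apply {X : Type} [MeasurableSpace X] (φ : V ≃ V) (w : V → X) :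
    MeasurableEquiv.piCongrLeft (fun _ => X) φ.symm w = fun v => w (φ v) := by
  funext v
  have := Equiv.piCongrLeft_apply_apply (fun _ : V => X) φ.symm w (φ v)
  rw [Equiv.symm_apply_apply] at this
  exact this

theorem Bsym : Bsym_stmt := by
  intro φ ρ F G A _ _
  unfold Q PP
  have hm := BSYM_map (fun v => pairLaw (ρ v)) φ
  rw [← hm, measureReal_def, measureReal_def, MeasurableEquiv.map_apply]
  congr 2
  ext w
  simp only [Set.mem_ofPred_eq, Set.mem_preimage, BSYM_apply]

theorem BSYM_not : ((PMF.uniformOfFintype Bool).toMeasure).map (fun a => !a) =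
    (PMF.uniformOfFintype Bool).toMeasure := by
  rw [PMF.toMeasure_map]
  · congr 1
    ext a
    rw [PMF.map_apply, tsum_bool]
    cases a <;> simp
  · exact measurable_of_finite _

theorem Bflip : Bflip_stmt := by
  intro φ F A hF
  unfold Pr P1
  have h1 := BSYM_map (fun _ => (PMF.uniformOfFintype Bool).toMeasure) φ
  have h2 := Measure.infinitePi_map_pi (fun _ : V => (PMF.uniformOfFintype Bool).toMeasure)
    (f := fun _ a => !a) (fun _ => measurable_of_finite _)
  simp only [BSYM_not] at h2
  have hm : Measurable fun (x : V → Bool) i => !x i :=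
    measurable_pi_lambda _ fun i => (measurable_of_finite (fun a : Bool => !a)).comp
      (measurable_pi_apply i)
  have hF' := hF.measurableSet
  conv_rhs => rw [← h2, measureReal_def, Measure.map_apply hm hF', ← h1]
  rw [MeasurableEquiv.map_apply, measureReal_def]
  congr 2
  ext w
  simp only [Set.mem_ofPred_eq, Set.mem_preimage, BSYM_apply]

end DP
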