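import Pool.Agent.helper61.DP.SpecA

/-!
# Project dp, part A, module RC: crossings of a rectangle in the two directions intersect
-/

namespace DP

theorem RC (hSI : SI_stmt) : RC_stmt := by
  intro a b d e W W' hW hW' u v u' v' hu hv hu' hv' hC hC'
  obtain ⟨N, hN⟩ : ∃ N : ℕ, N = a.natAbs + b.natAbs + d.natAbs + e.natAbs + 1 := ⟨_, rfl⟩
  have mu := hW hC.mem_left
  have mv := hW hC.mem_right
  have mu' := hW' hC'.mem_left
  have mv' := hW' hC'.mem_right
  simp only [rect, Set.mem_ofPred_eq] at mu mv mu' mv'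
  set W₁ : Set V := W ∪ {w | (w.2 = u.2 ∧ -(N : ℤ) ≤ w.1 ∧ w.1 ≤ a) ∨
    (w.2 = v.2 ∧ b ≤ w.1 ∧ w.1 ≤ N)} with hW₁
  set W₂ : Set V := W' ∪ {w | (w.1 = u'.1 ∧ -(N : ℤ) ≤ w.2 ∧ w.2 ≤ d) ∨
    (w.1 = v'.1 ∧ e ≤ w.2 ∧ w.2 ≤ N)} with hW₂
  have hbox : ∀ w : V, w ∈ rect a b d e → w ∈ box (0, 0) N := by
    intro w hw
    simp only [rect, Set.mem_ofPred_eq] at hw
    simp only [box, sd, Set.mem_ofPred_eq]
    omega
  have h1 : W₁ ⊆ box (0, 0) N := by
    rintro w (hw | hw)
    · exact hbox w (hW hw)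
    · simp only [Set.mem_ofPred_eq] at hw
      simp only [box, sd, Set.mem_ofPred_eq]
      omega
  have h2 : W₂ ⊆ box (0, 0) N := by
    rintro w (hw | hw)
    · exact hbox w (hW' hw)
    · simp only [Set.mem_ofPred_eq] at hw
      simp only [box, sd, Set.mem_ofPred_eq]
      omega
  have c1 : Con W₁ (-(N : ℤ), u.2) ((N : ℤ), v.2) := by
    have k1 : Con W₁ (-(N : ℤ), u.2) u := by
      have : u = (a, u.2) := Prod.ext hu rfl
      rw [this]
      refine con_horiz _ _ _ (by omega) fun t h1 h2 => Or.inr (Or.inl ⟨rfl, h1, h2⟩)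
    have k2 : Con W₁ v ((N : ℤ), v.2) := by
      have : v = (b, v.2) := Prod.ext hv rfl
      rw [this]
      refine con_horiz _ _ _ (by omega) fun t h1 h2 => Or.inr (Or.inr ⟨rfl, h1, h2⟩)
    exact (k1.trans (hC.mono Set.subset_union_left)).trans k2
  have c2 : Con W₂ (u'.1, -(N : ℤ)) (v'.1, (N : ℤ)) := by
    have k1 : Con W₂ (u'.1, -(N : ℤ)) u' := by
      have : u' = (u'.1, d) := Prod.ext rfl hu'
      rw [this]
      refine con_vert _ _ _ (by omega) fun t h1 h2 => Or.inr (Or.inl ⟨rfl, h1, h2⟩)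
    have k2 : Con W₂ v' (v'.1, (N : ℤ)) := by
      have : v' = (v'.1, e) := Prod.ext rfl hv'
      rw [this]
      refine con_vert _ _ _ (by omega) fun t h1 h2 => Or.inr (Or.inr ⟨rfl, h1, h2⟩)
    exact (k1.trans (hC'.mono Set.subset_union_left)).trans k2
  have b1 : ((-(N : ℤ), u.2) : V) ∈ bd (0, 0) N := by
    simp only [bd, sd, Set.mem_ofPred_eq]
    omega
  have b2 : ((u'.1, -(N : ℤ)) : V) ∈ bd (0, 0) N := by
    simp only [bd, sd, Set.mem_ofPred_eq]
    omega
  have b3 : (((N : ℤ), v.2) : V) ∈ bd (0, 0) N := by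
    simp only [bd, sd, Set.mem_ofPred_eq]
    omega
  have b4 : ((v'.1, (N : ℤ)) : V) ∈ bd (0, 0) N := by
    simp only [bd, sd, Set.mem_ofPred_eq]
    omega
  have p1 : pos (0, 0) N (-(N : ℤ), u.2) = 5 * N - u.2 := by
    simp only [pos]
    split_ifs <;> omega
  have p2 : pos (0, 0) N (u'.1, -(N : ℤ)) = 7 * N + u'.1 := by
    simp only [pos]
    split_ifs <;> omega
  have p3 : pos (0, 0) N ((N : ℤ), v.2) = N + v.2 := by
    simp only [pos]
    split_ifs <;> omega
  have p4 : pos (0, 0) N (v'.1, (N : ℤ)) = 3 * N - v'.1 := by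
    simp only [pos]
    split_ifs <;> omega
  have halt : alt (0, 0) N (-(N : ℤ), u.2) (u'.1, -(N : ℤ)) ((N : ℤ), v.2) (v'.1, (N : ℤ)) := by
    refine ⟨⟨b1, b2, b3, b4⟩, ?_, Or.inl ⟨⟨b1, b3, b2, ?_⟩, ⟨b3, b1, b4, ?_⟩⟩⟩
    · simp only [List.nodup_cons, List.mem_cons, Prod.mk.injEq, List.not_mem_nil, or_false,
        not_or, List.nodup_nil, and_true, not_false_eq_true]
      omega
    · rw [p1, p2, p3]
      rw [if_neg (by omega)]
      omega
    · rw [p1, p3, p4]
      rw [if_pos (by omega)]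
      omega
  obtain ⟨w, hw1, hw2⟩ := hSI (0, 0) N _ _ _ _ W₁ W₂ (by simp) (by omega) halt h1 h2 c1 c2
  have eu : ∀ w : V, w.1 = a → w.2 = u.2 → w ∈ W := fun w h1 h2 => by
    rw [Prod.ext (h1.trans hu.symm) h2]
    exact hC.mem_left
  have ev : ∀ w : V, w.1 = b → w.2 = v.2 → w ∈ W := fun w h1 h2 => by
    rw [Prod.ext (h1.trans hv.symm) h2]
    exact hC.mem_right
  have eu' : ∀ w : V, w.1 = u'.1 → w.2 = d → w ∈ W' := fun w h1 h2 => by
    rw [Prod.ext h1 (h2.trans hu'.symm)]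
    exact hC'.mem_left
  have ev' : ∀ w : V, w.1 = v'.1 → w.2 = e → w ∈ W' := fun w h1 h2 => by
    rw [Prod.ext h1 (h2.trans hv'.symm)]
    exact hC'.mem_right
  refine ⟨w, ?_, ?_⟩
  · rcases hw1 with hw | hw
    · exact hw
    · have hr : (a ≤ w.1 ∧ w.1 ≤ b) := by
        rcases hw2 with h | h
        · have := hW' h
          simp only [rect, Set.mem_ofPred_eq] at this
          omega
        · simp only [Set.mem_ofPred_eq] at h
          omega
      simp only [Set.mem_ofPred_eq] at hw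
      rcases hw with hw | hw
      · exact eu w (by omega) hw.1
      · exact ev w (by omega) hw.1
  · rcases hw2 with hw | hw
    · exact hw
    · have hr : (d ≤ w.2 ∧ w.2 ≤ e) := by
        rcases hw1 with h | h
        · have := hW h
          simp only [rect, Set.mem_ofPred_eq] at this
          omega
        · simp only [Set.mem_ofPred_eq] at h
          omega
      simp only [Set.mem_ofPred_eq] at hw
      rcases hw with hw | hw
      · exact eu' w hw.1 (by omega)
      · exact ev' w hw.1 (by omega)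

end DP
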