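import Pool.Agent.helper61.DP.SpecA

/-!
# Project dp, part A, module UV: vertical move of the reference point
-/

namespace DP

theorem UV : UV_stmt := by
  intro l z z' h1 h2 hz
  unfold upCross
  congr 1
  apply List.filter_congr
  rintro ⟨p, q⟩ hp
  have hp1 : p ∈ l := (List.of_mem_zip hp).1
  have hq1 : q ∈ l := List.mem_of_mem_tail (List.of_mem_zip hp).2
  have hpz : ¬ (p.1 = z'.1 ∧ p.2 = z'.2) := fun h => hz (by rwa [← Prod.ext h.1 h.2])
  have hqz : ¬ (q.1 = z'.1 ∧ q.2 = z'.2) := fun h => hz (by rwa [← Prod.ext h.1 h.2])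
  simp only []
  rw [Bool.eq_iff_iff]
  simp only [Bool.or_eq_true, decide_eq_true_eq]
  omega

end DP
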