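import Pool.Agent.helper76.DP.Spec
import Mathlib

set_option autoImplicit false

namespace Pool.Agent.DP

open Finset
open Pool.Agent.FR (mean Eig)

theorem HSI_bound {Z : Type} [Fintype Z] (F : Z → ℝ) (m N s : ℝ) (hm : 0 < m) (hN : 0 < N)
    (h : (∑ z, (F z / m) ^ 2) / N ≤ s ^ 2) : ∑ z, F z ^ 2 ≤ s ^ 2 * N * m ^ 2 := by
  have h1 : ∑ z, (F z / m) ^ 2 = (∑ z, F z ^ 2) / m ^ 2 := by
    rw [Finset.sum_div]
    refine Finset.sum_congr rfl fun z _ => ?_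
    rw [div_pow]
  rw [h1, div_le_iff₀ hN, div_le_iff₀ (by positivity)] at h
  exact h

theorem HSI : HSI_stmt := by
  intro Φ Ξ _ _ _ _ u v B s t hs ht hB hu hv
  have ha : (0 : ℝ) < (Fintype.card Φ : ℝ) := by exact_mod_cast Fintype.card_pos
  have hb : (0 : ℝ) < (Fintype.card Ξ : ℝ) := by exact_mod_cast Fintype.card_pos
  set a : ℝ := (Fintype.card Φ : ℝ) with hadef
  set b : ℝ := (Fintype.card Ξ : ℝ) with hbdef
  have hcard : ((Fintype.card (Φ × Φ) : ℕ) : ℝ) = a * a := by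
    rw [Fintype.card_prod, Nat.cast_mul]
  have hcardX : ((Fintype.card (Ξ × Ξ) : ℕ) : ℝ) = b * b := by
    rw [Fintype.card_prod, Nat.cast_mul]
  simp only [mean] at hu hv ⊢
  rw [hcard] at hu hv
  have hF := HSI_bound (fun z : Φ × Φ => ∑ x, u z.1 x * u z.2 x) b (a * a) s hb (by positivity) hu
  have hG := HSI_bound (fun z : Φ × Φ => ∑ x, v z.1 x * v z.2 x) b (a * a) t hb (by positivity) hv
  set F : Φ × Φ → ℝ := fun z => ∑ x, u z.1 x * u z.2 x with hFdef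
  set G : Φ × Φ → ℝ := fun z => ∑ x, v z.1 x * v z.2 x with hGdef
  have hFG : ∑ z, F z * G z ≤ s * t * (a * a) * b ^ 2 := by
    have h1 : (∑ z, F z * G z) ^ 2 ≤ (∑ z, F z ^ 2) * ∑ z, G z ^ 2 :=
      Finset.sum_mul_sq_le_sq_mul_sq _ _ _
    have h2 : (∑ z, F z ^ 2) * ∑ z, G z ^ 2 ≤ (s ^ 2 * (a * a) * b ^ 2) * (t ^ 2 * (a * a) * b ^ 2) :=
      mul_le_mul hF hG (Finset.sum_nonneg fun z _ => sq_nonneg _) (by positivity)
    have h3 : (s ^ 2 * (a * a) * b ^ 2) * (t ^ 2 * (a * a) * b ^ 2) = (s * t * (a * a) * b ^ 2) ^ 2 := by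
      ring
    have h4 : (0 : ℝ) ≤ s * t * (a * a) * b ^ 2 := by positivity
    exact le_of_abs_le (abs_le_of_sq_le_sq (h1.trans (h2.trans h3.le)) h4)
  have hW : ∑ p : Ξ × Ξ, (∑ φ, u φ p.1 * v φ p.2) ^ 2 = ∑ z, F z * G z := by
    have h1 : ∀ p : Ξ × Ξ, (∑ φ, u φ p.1 * v φ p.2) ^ 2 =
        ∑ z : Φ × Φ, (u z.1 p.1 * v z.1 p.2) * (u z.2 p.1 * v z.2 p.2) := by
      intro p
      rw [sq, Finset.sum_mul_sum, Fintype.sum_prod_type]
    rw [Finset.sum_congr rfl fun p _ => h1 p, Finset.sum_comm]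
    refine Finset.sum_congr rfl fun z _ => ?_
    rw [hFdef, hGdef]
    simp only
    rw [Finset.sum_mul_sum, Fintype.sum_prod_type]
    refine Finset.sum_congr rfl fun x _ => Finset.sum_congr rfl fun y _ => ?_
    ring
  have hT : (∑ p : Ξ × Ξ, (∑ φ, u φ p.1 * v φ p.2) * B p) ^ 2 ≤ (s * t * (a * a) * b ^ 2) * (b * b) := by
    have h1 : (∑ p : Ξ × Ξ, (∑ φ, u φ p.1 * v φ p.2) * B p) ^ 2 ≤
        (∑ p : Ξ × Ξ, (∑ φ, u φ p.1 * v φ p.2) ^ 2) * ∑ p : Ξ × Ξ, B p ^ 2 :=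
      Finset.sum_mul_sq_le_sq_mul_sq _ _ _
    have h2 : ∑ p : Ξ × Ξ, B p ^ 2 ≤ b * b := by
      calc ∑ p : Ξ × Ξ, B p ^ 2 ≤ ∑ _p : Ξ × Ξ, (1 : ℝ) := by
            refine Finset.sum_le_sum fun p _ => ?_
            have := hB p
            rw [← sq_abs]
            exact pow_le_one₀ (abs_nonneg _) this
        _ = b * b := by
            rw [Finset.sum_const, Finset.card_univ, nsmul_eq_mul, mul_one, hcardX]
    refine h1.trans (mul_le_mul ?_ h2 (Finset.sum_nonneg fun z _ => sq_nonneg _) (by positivity))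
    rw [hW]
    exact hFG
  have hL : (∑ φ, (∑ p : Ξ × Ξ, u φ p.1 * v φ p.2 * B p) / ((Fintype.card (Ξ × Ξ) : ℕ) : ℝ)) / a =
      (∑ p : Ξ × Ξ, (∑ φ, u φ p.1 * v φ p.2) * B p) / (a * (b * b)) := by
    rw [hcardX, ← Finset.sum_div, div_div, Finset.sum_comm, mul_comm (b * b) a]
    congr 1
    refine Finset.sum_congr rfl fun p _ => ?_
    rw [Finset.sum_mul]
  rw [hL]
  apply Real.abs_le_sqrt
  rw [div_pow, div_le_iff₀ (by positivity)]
  refine hT.trans (le_of_eq ?_)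
  ring

end Pool.Agent.DP
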