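import Pool.Agent.helper96.DP.SpecE
import Pool.Agent.helper96.DP.Basic

/-!
# Project dp, part E, module RT: existence of routes
-/

namespace DP

theorem RT (hRTA : RTA_stmt) (hRTB : RTB_stmt) : RT_stmt := by
  classical
  intro d e hde
  obtain ⟨h, T, i₁, h1, h2, H⟩ := hRTB d e hde
  refine ⟨h, 2 * T + 1, i₁, h1, h2, ?_⟩
  intro j s x i y hj hi hy hord hsep
  obtain ⟨π, f, p0, p1, hf⟩ := H j s x i y hj hi hy hord hsep
  have hl1 : 1 ≤ 2 ^ (i - h) := Nat.one_le_two_pow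
  have key : ∀ l, ∃ gs : List V, l < j → (Chn (2 ^ (i - h)) gs ∧ gs.head? = some (f l 0) ∧
      gs.length ≤ 2 * T + 1 ∧ (∃ g, gs.getLast? = some g ∧ sd (f l T) g ≤ 2 ^ (i - h)) ∧
      ∀ g ∈ gs, ∃ t ≤ T, sd (f l t) g ≤ 2 * 2 ^ (i - h)) := by
    intro l
    by_cases hl : l < j
    · obtain ⟨gs, hgs⟩ := hRTA (2 ^ (i - h)) T (f l) hl1 (hf l hl).2.1
      exact ⟨gs, fun _ => hgs⟩
    · exact ⟨[], fun h => absurd h hl⟩
  choose gs hgs using key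
  have hreg : ∀ l < j, ∀ v ∈ reg (2 ^ (i - h)) (gs l), ∃ t ≤ T,
      sd (f l t) v < 5 * 2 ^ (i - h) := by
    rintro l hl v ⟨g, hg, hgv⟩
    obtain ⟨t, ht, hd⟩ := (hgs l hl).2.2.2.2 g hg
    refine ⟨t, ht, ?_⟩
    have := sd_triangle (f l t) g v
    omega
  refine ⟨π, gs, p0, p1, ?_⟩
  intro l hl
  obtain ⟨a1, a2, a3, ⟨g, a4, a5⟩, a6⟩ := hgs l hl
  obtain ⟨b1, b2, ⟨r, b3, b4⟩, b5⟩ := hf l hl
  refine ⟨a1, by rw [a2, b1], a3, ⟨g, r, a4, by rw [← b3]; exact a5, b4⟩, ?_, ?_, ?_⟩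
  · intro v hv hvH
    obtain ⟨t, ht, hd⟩ := hreg l hl v hv
    exact ((b5 t ht).1 v hd.le).1 hvH
  · intro v hv hvb
    obtain ⟨t, ht, hd⟩ := hreg l hl v hv
    exact ((b5 t ht).1 v hd.le).2.1 hvb
  · intro l' hl' hne
    refine ⟨?_, ?_⟩
    · intro v hv
      obtain ⟨t, ht, hd⟩ := hreg l hl v hv
      exact ((b5 t ht).1 v hd.le).2.2 l' hl' hne
    · rw [Set.disjoint_left]
      intro v hv hv'
      obtain ⟨t, ht, hd⟩ := hreg l hl v hv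
      obtain ⟨t', ht', hd'⟩ := hreg l' hl' v hv'
      have h3 := (b5 t ht).2 l' hl' hne t' ht'
      have h4 := sd_triangle (f l t) v (f l' t')
      rw [sd_comm v] at h4
      omega

end DP
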