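import Pool.Agent.helper96.DP.SpecE
import Pool.Agent.helper96.DP.Basic

/-!
# Project dp, part E, module RTA: a chain of cells along a discrete curve
-/

namespace DP

/-- one step of a chain (or no step) -/
theorem RTA_step (ℓ : ℕ) (gs : List V) (g g' : V) (hc : Chn ℓ gs) (hl : gs.getLast? = some g)
    (h : g' = g ∨ gnb ℓ g g') :
    ∃ gs' : List V, Chn ℓ gs' ∧ gs'.head? = gs.head? ∧ gs'.length ≤ gs.length + 1 ∧
      gs'.getLast? = some g' ∧ ∀ z ∈ gs', z ∈ gs ∨ z = g' := by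
  rcases h with rfl | h
  · exact ⟨gs, hc, rfl, Nat.le_succ _, hl, fun z hz => Or.inl hz⟩
  · refine ⟨gs ++ [g'], ?_, ?_, by simp, by simp, fun z hz => ?_⟩
    · unfold Chn at hc ⊢
      rw [List.isChain_append]
      refine ⟨hc, by simp, ?_⟩
      intro a ha b hb
      simp only [List.head?_cons, Option.mem_def, Option.some.injEq] at hb
      rw [Option.mem_def, hl, Option.some.injEq] at ha
      subst ha hb
      exact h
    · cases gs with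
      | nil => simp at hl
      | cons c l => simp
    · rcases List.mem_append.1 hz with h' | h'
      · exact Or.inl h'
      · exact Or.inr (List.mem_singleton.1 h')

theorem RTA_div (ℓ : ℕ) (hℓ : 1 ≤ ℓ) (z : ℤ) :
    -(ℓ : ℤ) ≤ z - 2 * ℓ * ((z + ℓ) / (2 * ℓ)) ∧ z - 2 * ℓ * ((z + ℓ) / (2 * ℓ)) ≤ ℓ := by
  have h1 := Int.mul_ediv_add_emod (z + ℓ) (2 * ℓ)
  have h2 := Int.emod_nonneg (z + ℓ) (show (2 * ℓ : ℤ) ≠ 0 by omega)
  have h3 := Int.emod_lt_of_pos (z + ℓ) (show (0 : ℤ) < 2 * ℓ by omega)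
  constructor <;> linarith

theorem RTA_div' (ℓ : ℕ) (hℓ : 1 ≤ ℓ) (z z' : ℤ) (h1 : z - z' ≤ ℓ) (h2 : z' - z ≤ ℓ) :
    (z' + ℓ) / (2 * ℓ) = (z + ℓ) / (2 * ℓ) ∨ (z' + ℓ) / (2 * ℓ) = (z + ℓ) / (2 * ℓ) + 1 ∨
      (z' + ℓ) / (2 * ℓ) = (z + ℓ) / (2 * ℓ) - 1 := by
  obtain ⟨a1, a2⟩ := RTA_div ℓ hℓ z
  obtain ⟨b1, b2⟩ := RTA_div ℓ hℓ z'
  set q := (z + ℓ) / (2 * ℓ)
  set q' := (z' + ℓ) / (2 * ℓ)
  have hpos : (1 : ℤ) ≤ ℓ := by exact_mod_cast hℓ
  have k1 : q' - q < 2 := by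
    by_contra hc
    have : (2 : ℤ) * ℓ * 2 ≤ 2 * ℓ * (q' - q) := mul_le_mul_of_nonneg_left (by omega) (by omega)
    nlinarith
  have k2 : q - q' < 2 := by
    by_contra hc
    have : (2 : ℤ) * ℓ * 2 ≤ 2 * ℓ * (q - q') := mul_le_mul_of_nonneg_left (by omega) (by omega)
    nlinarith
  omega

/-- rounding to the grid -/
def RTA_r (ℓ : ℕ) (f : ℕ → V) (t : ℕ) : V :=
  ((f 0).1 + 2 * ℓ * (((f t).1 - (f 0).1 + ℓ) / (2 * ℓ)),
    (f 0).2 + 2 * ℓ * (((f t).2 - (f 0).2 + ℓ) / (2 * ℓ)))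

theorem RTA_r0 (ℓ : ℕ) (hℓ : 1 ≤ ℓ) (f : ℕ → V) : RTA_r ℓ f 0 = f 0 := by
  have : ((0 : ℤ) + ℓ) / (2 * ℓ) = 0 := Int.ediv_eq_zero_of_lt (by omega) (by omega)
  unfold RTA_r
  rw [sub_self, sub_self, this]
  simp

theorem RTA_close (ℓ : ℕ) (hℓ : 1 ≤ ℓ) (f : ℕ → V) (t : ℕ) : sd (f t) (RTA_r ℓ f t) ≤ ℓ := by
  obtain ⟨a1, a2⟩ := RTA_div ℓ hℓ ((f t).1 - (f 0).1)
  obtain ⟨b1, b2⟩ := RTA_div ℓ hℓ ((f t).2 - (f 0).2)
  rw [sd_le_iff]
  simp only [RTA_r]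
  omega

theorem RTA : RTA_stmt := by
  intro ℓ T f hℓ hf
  suffices h : ∃ gs : List V, Chn ℓ gs ∧ gs.head? = some (f 0) ∧ gs.length ≤ 2 * T + 1 ∧
      gs.getLast? = some (RTA_r ℓ f T) ∧ ∀ g ∈ gs, ∃ t ≤ T, sd (f t) g ≤ 2 * ℓ by
    obtain ⟨gs, h1, h2, h3, h4, h5⟩ := h
    exact ⟨gs, h1, h2, h3, ⟨_, h4, RTA_close ℓ hℓ f T⟩, h5⟩
  induction T with
  | zero =>
    refine ⟨[f 0], by simp [Chn], by simp, by simp, by simp [RTA_r0 ℓ hℓ f], ?_⟩
    intro g hg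
    rw [List.mem_singleton.1 hg]
    exact ⟨0, le_rfl, by simp⟩
  | succ T ih =>
    obtain ⟨gs, h1, h2, h3, h4, h5⟩ := ih fun t ht => hf t (by omega)
    have hT := hf T (by omega)
    rw [sd_le_iff] at hT
    have hA := RTA_div' ℓ hℓ ((f T).1 - (f 0).1) ((f (T + 1)).1 - (f 0).1) (by omega) (by omega)
    have hB := RTA_div' ℓ hℓ ((f T).2 - (f 0).2) ((f (T + 1)).2 - (f 0).2) (by omega) (by omega)
    have hc1 := RTA_close ℓ hℓ f T
    have hc2 := RTA_close ℓ hℓ f (T + 1)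
    obtain ⟨gs1, k1, k2, k3, k4, k5⟩ := RTA_step ℓ gs (RTA_r ℓ f T)
      ((RTA_r ℓ f (T + 1)).1, (RTA_r ℓ f T).2) h1 h4 (by
        simp only [RTA_r, gnb, Prod.mk.injEq, and_true]
        rcases hA with hA | hA | hA
        · left
          rw [hA]
        · right; left
          rw [hA]
          ring
        · right; right; left
          rw [hA]
          ring)
    obtain ⟨gs2, l1, l2, l3, l4, l5⟩ := RTA_step ℓ gs1 ((RTA_r ℓ f (T + 1)).1, (RTA_r ℓ f T).2)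
      (RTA_r ℓ f (T + 1)) k1 k4 (by
        simp only [RTA_r, gnb, Prod.mk.injEq, true_and]
        rcases hB with hB | hB | hB
        · left
          rw [hB]
        · right; right; right; left
          rw [hB]
          ring
        · right; right; right; right
          rw [hB]
          ring)
    refine ⟨gs2, l1, by rw [l2, k2, h2], by omega, l4, ?_⟩
    intro g hg
    rcases l5 g hg with hg | rfl
    · rcases k5 g hg with hg | rfl
      · obtain ⟨t, ht, h⟩ := h5 g hg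
        exact ⟨t, by omega, h⟩
      · refine ⟨T + 1, le_rfl, ?_⟩
        rw [sd_le_iff] at hc1 hc2 ⊢
        push_cast
        omega
    · exact ⟨T + 1, le_rfl, by omega⟩

end DP
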